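import Pool.Agent.R204.DGb

/-!
MP_b4d381_co, Q1: there is a minimal degree-sequence-forcing set with infinitely many pairwise
non-isomorphic members.  Idea of the proof: helper42.
-/

namespace Pool.Agent.Results.MP_b4d381_co.InfiniteMinimal

/-- Finite simple graphs, on the vertex sets `Fin n`. -/
abbrev Graph := Σ n : ℕ, SimpleGraph (Fin n)

open scoped Classical in
/-- The degree sequence of a graph, as the multiset of its vertex degrees. -/
noncomputable def degSeq (H : Graph) : Multiset ℕ :=
  (Finset.univ : Finset (Fin H.1)).val.map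
    fun v => (Finset.univ.filter fun u => H.2.Adj v u).card

/-- `H` induces `G`: some induced subgraph of `H` is isomorphic to `G`. -/
def Induces (H G : Graph) : Prop := Nonempty (G.2 ↪g H.2)

/-- A nonempty set `F` of graphs is degree-sequence-forcing (DSF): whenever some realization of
a degree sequence is `F`-free, every realization of it is `F`-free. -/
def IsDSF (F : Set Graph) : Prop :=
  F.Nonempty ∧ ∀ H H' : Graph, degSeq H = degSeq H' →
    (∀ X ∈ F, ¬ Induces H X) → ∀ X ∈ F, ¬ Induces H' X

/-- A DSF set is minimal: every DSF subset of it is all of it, up to isomorphism of the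
members. -/
def IsMinimalDSF (F : Set Graph) : Prop :=
  IsDSF F ∧ ∀ F' ⊆ F, IsDSF F' → ∀ X ∈ F, ∃ Y ∈ F', Nonempty (X.2 ≃g Y.2)

theorem result : ∃ F : Set Graph, IsMinimalDSF F ∧ ∃ f : ℕ → Graph, (∀ i, f i ∈ F) ∧
    ∀ i j, i ≠ j → ¬ Nonempty ((f i).2 ≃g (f j).2) := by
  obtain ⟨f, hf, hij⟩ := Pool.Agent.R204.DGP.DG_infinite
  exact ⟨_, Pool.Agent.R204.DGP.DG_minimalDSF ⟨12, Pool.Agent.R204.DGP.G12⟩, f, hf, hij⟩

end Pool.Agent.Results.MP_b4d381_co.InfiniteMinimal
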